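import Pool.Agent.LightFace.Example2

/-!
The coefficient of `f_{5,5,7}` in Borodin's inequality
`18 f_{5,5,5} + 9 f_{5,5,6} + 5 f_{5,5,7} + 4 f_{5,6,6} ≥ 144` cannot be lowered: a plane
triangulation with 114 vertices has `f_{5,5,5} = f_{5,5,6} = 0` and `f_{5,5,7} = f_{5,6,6} = 16`.
-/

namespace Pool.Agent.Results.MP_cadcf7_co.AtLeastFive

open Pool.Agent.LightEdge

theorem result (c : ℝ)
    (h : ∀ (V : Type) [Finite V] (G : SimpleGraph V) (R : Rotation G), G.Connected → R.IsPlane →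
      (∀ v, 5 ≤ deg G v) → (∃ v, deg G v = 5) →
      144 ≤ 18 * (R.triCount 5 5 5 : ℝ) + 9 * (R.triCount 5 5 6 : ℝ)
        + c * (R.triCount 5 5 7 : ℝ) + 4 * (R.triCount 5 6 6 : ℝ)) :
    5 ≤ c := by
  have h1 := h (Fin 114) Ex114 ExRB ex_connB ex_planeB
    (fun v => by rw [deg_eq]; exact ex_deg_fiveB v)
    ⟨1, by rw [deg_eq, deg_allB]; decide +kernel⟩
  rw [c555, c556, c557, c566] at h1
  norm_num at h1
  linarith

end Pool.Agent.Results.MP_cadcf7_co.AtLeastFive
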